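import Pool.Agent.N652.OM.Defs
import Pool.Agent.W661.RC.Stm2
import Pool.Agent.H21R2.Defs

/-!
# Project OM: statements of the group theoretic parts
-/

set_option autoImplicit false

namespace Pool.Agent.N652.OM

open Pool.Agent.N44.NS (el E3 LEF)
open Pool.Agent.W661.RC (HasT)
open Pool.Agent.H21R2 (IsSofic)

noncomputable section

/-- the conjugacy class of `g` under the subgroup `K` is finite -/
def FO {Γ : Type} [Group Γ] (K : Subgroup Γ) (g : Γ) : Prop :=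
  {x : Γ | ∃ k ∈ K, x = k * g * k⁻¹}.Finite

/-- The group theoretic data. -/
structure GD (Γ : Type) [Group Γ] (K T : Subgroup Γ) (h l1 l2 : Γ) : Prop where
  tK : HasT K
  tT : HasT T
  comm : ∀ k ∈ K, ∀ t ∈ T, k * t = t * k
  mono : ∀ k ∈ K, h⁻¹ * k * h ∈ K
  gen : K ⊔ T ⊔ Subgroup.zpowers h = ⊤
  m1 : h⁻¹ * l1 * h ∈ K
  m2 : h⁻¹ * l2 * h ∈ K
  c1 : ∀ k ∈ K, l1 * k = k * l1
  c2 : ∀ k ∈ K, l2 * k = k * l2
  nc : l1 * l2 ≠ l2 * l1
  fc : ∀ g, FO K g → FO T g → g = 1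
  sofic : IsSofic Γ

/-- GRP: the group exists. -/
def S_GRP : Prop :=
  ∃ (Γ : Type) (_ : Group Γ) (_ : Countable Γ) (K T : Subgroup Γ) (h l1 l2 : Γ),
    GD Γ K T h l1 l2

/-- GEN: the algebra of the operators with a symbol on one line is generated by four elements
(the shift, its inverse, a projection of rank one). -/
def S_GEN : Prop := ∃ g : Fin 4 → Sg Unit, Algebra.adjoin F (Set.range g) = ⊤

/-- TTK: property (T). -/
def S_TTK : Prop := ∀ b : Bool, HasT (EE (RR b))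

/-- CONJ: the conjugation by `h` preserves the symbol. -/
def S_CONJ : Prop :=
  ∀ (x : MM Bool) (p : Bool → LaurentPolynomial F), Sy x p →
    Sy ((hM : MM Bool) * x * ((hM⁻¹ : (MM Bool)ˣ) : MM Bool)) p ∧
      Sy (((hM⁻¹ : (MM Bool)ˣ) : MM Bool) * x * (hM : MM Bool)) p

/-- UNQ: the symbol is unique and the powers of `h` have no symbol. -/
def S_UNQ : Prop :=
  (∀ (B : Type) (x : MM B) (p q : B → LaurentPolynomial F), Sy x p → Sy x q → p = q) ∧
    ∀ (n : ℤ) (p : Bool → LaurentPolynomial F), Sy (((hM ^ n : (MM Bool)ˣ)) : MM Bool) p → n = 0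

/-- MON: the relations. `a_0 = (0, true)`. -/
def S_MON : Prop :=
  (∀ k ∈ EE (RR false), hG⁻¹ * k * hG ∈ EE (RR false)) ∧
  (∀ k ∈ EE (RR false), ∀ t ∈ EE (RR true), k * t = t * k) ∧
  ∃ l1 l2, l1 ∈ Gam ∧ l2 ∈ Gam ∧ hG⁻¹ * l1 * hG ∈ EE (RR false) ∧
    hG⁻¹ * l2 * hG ∈ EE (RR false) ∧ (∀ k ∈ EE (RR false), l1 * k = k * l1) ∧
    (∀ k ∈ EE (RR false), l2 * k = k * l2) ∧ l1 * l2 ≠ l2 * l1

/-- DET: the elements of the group have, up to a power of `h`, a symbol of determinant one. -/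
def S_DET : Prop :=
  ∀ g ∈ Gam, ∃ (n : ℤ) (P : Matrix (Fin 3) (Fin 3) (Bool → LaurentPolynomial F)),
    (∀ i j, Sy ((g * hG ^ (-n)).1 i j) (P i j)) ∧ P.det = 1

/-- FCI: subgroups of finite index contain the elementary matrices of finite rank. -/
def S_FCI : Prop :=
  ∀ (b : Bool) (H : Subgroup (EE (RR b))), H.FiniteIndex →
    ∀ (i j : Fin 3) (hij : i ≠ j) (m n : ℤ) (c : F),
      ∃ x ∈ H, (x : (Matrix (Fin 3) (Fin 3) (MM Bool))ˣ) = el i j hij (eu (m, b) (n, b) c)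

/-- CEN: an element which commutes with the elementary matrices of finite rank of both lines is a
scalar on each line. -/
def S_CEN : Prop :=
  ∀ g : (Matrix (Fin 3) (Fin 3) (MM Bool))ˣ,
    (∀ (b : Bool) (i j : Fin 3) (hij : i ≠ j) (m n : ℤ),
      g * el i j hij (eu (m, b) (n, b) 1) = el i j hij (eu (m, b) (n, b) 1) * g) →
    ∃ c : Bool → F, ∀ i j, ∀ (b : Bool) (m : ℤ),
      g.1 i j (Finsupp.single (m, b) 1) = if i = j then Finsupp.single (m, b) (c b) else 0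

/-- the ring `R` is locally embeddable into finite rings -/
def RLEF (R : Type) [Ring R] : Prop :=
  ∀ A : Finset R, ∃ (Q : Type) (_ : Ring Q) (_ : Finite Q) (φ : R → Q), φ 1 = 1 ∧ φ 0 = 0 ∧
    (∀ a ∈ A, ∀ b ∈ A, φ (a * b) = φ a * φ b ∧ φ (a + b) = φ a + φ b) ∧
      ∀ a ∈ A, ∀ b ∈ A, a ≠ b → φ a ≠ φ b

/-- CYC: cyclic truncations. -/
def S_CYC : Prop := RLEF (Sg Bool)

/-- GLF: the unit groups of the matrix rings over an LEF ring are LEF. -/
def S_GLF : Prop := ∀ (R : Type) [Ring R], RLEF R → LEF (Matrix (Fin 3) (Fin 3) R)ˣ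

/-- EXT: extensions of LEF groups by `ℤ` are sofic. -/
def S_EXT : Prop :=
  ∀ (Γ : Type) [Group Γ] (π : Γ →* Multiplicative ℤ), LEF π.ker → IsSofic Γ

end

end Pool.Agent.N652.OM
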