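import Pool.Agent.N652.OM.Grp1
import Pool.Agent.N717.OM_TTK
import Pool.Agent.N303.KQ.FG

/-!
# Project OM: assembly of the group theoretic part, second file
-/

set_option autoImplicit false

namespace Pool.Agent.N652.OM

open Pool.Agent.N44.NS (el E3 LEF)
open Pool.Agent.W661.RC (HasT)
open Pool.Agent.H21R2 (IsSofic)
open Pool.Agent.N717.OM_TTK (hasT_surj)

noncomputable section

/-- elements with a finite class have a centralizer of finite index -/
theorem finiteIndex_cent {G : Type} [Group G] (L : Subgroup G) (g : G)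
    (h : {x : G | ∃ k ∈ L, x = k * g * k⁻¹}.Finite) :
    ((Subgroup.centralizer {g}).subgroupOf L).FiniteIndex := by
  have : Finite (L ⧸ ((Subgroup.centralizer {g}).subgroupOf L)) := by
    have hf : Finite {x : G | ∃ k ∈ L, x = k * g * k⁻¹} := h
    refine Finite.of_injective (β := {x : G | ∃ k ∈ L, x = k * g * k⁻¹})
      (fun q => Quotient.liftOn' q (fun k => ⟨(k : G) * g * (k : G)⁻¹, k, k.2, rfl⟩) ?_) ?_
    · intro a b hab
      rw [QuotientGroup.leftRel_apply] at hab
      rw [Subgroup.mem_subgroupOf, Subgroup.mem_centralizer_singleton_iff] at hab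
      apply Subtype.ext
      show (a : G) * g * (a : G)⁻¹ = (b : G) * g * (b : G)⁻¹
      have h1 : ((a⁻¹ * b : L) : G) = (a : G)⁻¹ * (b : G) := rfl
      rw [h1] at hab
      have h2 : (a : G)⁻¹ * (b : G) * g = g * ((a : G)⁻¹ * (b : G)) := hab
      have h3 : (b : G) * g = (a : G) * (g * ((a : G)⁻¹ * (b : G))) := by
        rw [← h2]; group
      rw [h3]; group
    · intro p q
      refine Quotient.inductionOn₂' p q fun a b hab => ?_
      have h1 : (a : G) * g * (a : G)⁻¹ = (b : G) * g * (b : G)⁻¹ := congrArg Subtype.val hab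
      apply Quotient.sound'
      rw [QuotientGroup.leftRel_apply, Subgroup.mem_subgroupOf,
        Subgroup.mem_centralizer_singleton_iff]
      show (a : G)⁻¹ * (b : G) * g = g * ((a : G)⁻¹ * (b : G))
      have h2 : (b : G) * g = (a : G) * g * (a : G)⁻¹ * (b : G) := by
        rw [h1]; group
      rw [mul_assoc, h2]; group
  exact Subgroup.finiteIndex_of_finite_quotient

theorem cube_root (x : F) (h : x ^ 3 = 1) : x = 1 := by
  have h0 : x ≠ 0 := by
    rintro rfl
    simp at h
  have h1 : x ^ 256 = 1 := ZMod.pow_card_sub_one_eq_one h0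
  have h2 : x ^ 256 = (x ^ 3) ^ 85 * x := by ring
  rw [h2, h, one_pow, one_mul] at h1
  exact h1

theorem fc_trivial (hU : S_UNQ) (hD : S_DET) (hF : S_FCI) (hN : S_CEN)
    (g : GLM) (hg : g ∈ Gam)
    (h : ∀ b, {x : GLM | ∃ k ∈ EE (RR b), x = k * g * k⁻¹}.Finite) : g = 1 := by
  have h1 : ∀ (b : Bool) (i j : Fin 3) (hij : i ≠ j) (m n : ℤ),
      g * el i j hij (eu (m, b) (n, b) 1) = el i j hij (eu (m, b) (n, b) 1) * g := by
    intro b i j hij m n
    obtain ⟨x, hx, hx2⟩ := hF b _ (finiteIndex_cent (EE (RR b)) g (h b)) i j hij m n 1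
    rw [Subgroup.mem_subgroupOf, Subgroup.mem_centralizer_singleton_iff, hx2] at hx
    exact hx.symm
  obtain ⟨c, hc⟩ := hN g h1
  obtain ⟨n, P, hP, hdet⟩ := hD g hg
  -- the constants are nonzero
  have hc0 : ∀ b, c b ≠ 0 := by
    intro b hb
    have e1 : (g⁻¹.1 * g.1) 0 0 (Finsupp.single ((0 : ℤ), b) 1) = Finsupp.single ((0 : ℤ), b) 1 := by
      rw [Units.inv_mul g, Matrix.one_apply_eq]; rfl
    rw [Matrix.mul_apply, LinearMap.sum_apply] at e1
    have e2 : ∀ k, (g⁻¹.1 0 k * g.1 k 0) (Finsupp.single ((0 : ℤ), b) 1) = 0 := by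
      intro k
      rw [Module.End.mul_apply, hc k 0 b 0]
      split
      · rw [hb, Finsupp.single_zero, map_zero]
      · rw [map_zero]
    rw [Finset.sum_congr rfl fun k _ => e2 k, Finset.sum_const_zero] at e1
    have := (Finsupp.single_eq_zero.1 e1.symm)
    exact one_ne_zero this
  -- symbols
  have hsym : ∀ i j, Sy (g.1 i j) (if i = j then (fun b => (c b) • (1 : LP)) else 0) := by
    intro i j
    refine ⟨0, fun b m _ => ?_⟩
    rw [hc i j b m]
    split
    · rw [sh_smul, sh_one, Finsupp.smul_single, smul_eq_mul, mul_one]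
    · rw [Pi.zero_apply]; simp [sh]
  have hn : n = 0 := by
    -- the diagonal operator with the inverse constants
    set D : MM Bool := opS fun b => ((c b)⁻¹) • (1 : LP) with hDdef
    have hDs : Sy D fun b => ((c b)⁻¹) • (1 : LP) := Sy_opS _
    have e1 : (g * hG ^ (-n)).1 0 0 = g.1 0 0 * ((hM ^ (-n) : (MM Bool)ˣ) : MM Bool) := by
      rw [Units.val_mul, hG_zpow_val, mul_scalar_apply']
    have e2 : D * g.1 0 0 = 1 := by
      refine Finsupp.lhom_ext' fun w => LinearMap.ext_ring ?_
      obtain ⟨m, b⟩ := w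
      show D (g.1 0 0 (Finsupp.single (m, b) 1)) = Finsupp.single (m, b) 1
      rw [hc 0 0 b m, if_pos rfl]
      have e3 : (Finsupp.single (m, b) (c b) : Vc Bool) = (c b) • Finsupp.single (m, b) 1 := by
        rw [Finsupp.smul_single, smul_eq_mul, mul_one]
      rw [e3, map_smul, opS_single, sh_smul, sh_one, Finsupp.smul_single, Finsupp.smul_single,
        smul_eq_mul, smul_eq_mul, mul_one, mul_inv_cancel₀ (hc0 b)]
    have e4 : Sy (((hM ^ (-n) : (MM Bool)ˣ)) : MM Bool) ((fun b => ((c b)⁻¹) • (1 : LP)) * P 0 0) := by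
      have h5 := hDs.mul (hP 0 0)
      rw [e1, ← mul_assoc, e2, one_mul] at h5
      exact h5
    have := hU.2 _ _ e4
    omega
  subst hn
  have hPij : ∀ i j, P i j = (if i = j then (fun b => (c b) • (1 : LP)) else 0) := by
    intro i j
    have h5 := hP i j
    rw [neg_zero, zpow_zero, mul_one] at h5
    exact hU.1 _ _ _ _ h5 (hsym i j)
  have hPd : P = Matrix.diagonal fun _ => (fun b => (c b) • (1 : LP)) := by
    ext1 i j
    rw [hPij, Matrix.diagonal_apply]
  have hc1 : ∀ b, c b = 1 := by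
    intro b
    apply cube_root
    rw [hPd, Matrix.det_diagonal, Fin.prod_univ_three] at hdet
    have h6 := congrFun hdet b
    have h7 : ((c b) • (1 : LP)) * ((c b) • (1 : LP)) * ((c b) • (1 : LP)) = 1 := h6
    rw [smul_mul_smul_comm, smul_mul_smul_comm, mul_one, mul_one] at h7
    have h8 := congrArg (fun p : LP => p.coeff 0) h7
    simp only [AddMonoidAlgebra.coeff_smul, Finsupp.smul_apply] at h8
    rw [AddMonoidAlgebra.one_def, AddMonoidAlgebra.coeff_single, Finsupp.single_eq_same,
      smul_eq_mul, mul_one] at h8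
    rw [← h8]; ring
  apply Units.ext
  ext1 i j
  refine Finsupp.lhom_ext' fun w => LinearMap.ext_ring ?_
  obtain ⟨m, b⟩ := w
  show g.1 i j (Finsupp.single (m, b) 1) = (1 : GLM).1 i j (Finsupp.single (m, b) 1)
  rw [hc i j b m, hc1 b, Units.val_one, Matrix.one_apply]
  split <;> rfl

theorem EE_le (b : Bool) : EE (RR b) ≤ Gam := by
  unfold Gam
  cases b
  · exact le_sup_left.trans le_sup_left
  · exact le_sup_right.trans le_sup_left

theorem hG_mem : hG ∈ Gam := by
  unfold Gam
  exact (le_sup_right : Subgroup.zpowers hG ≤ _) (Subgroup.mem_zpowers hG)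

/-- the subgroup `EE (RR b)` of `Gam` -/
def KK (b : Bool) : Subgroup Gam := (EE (RR b)).subgroupOf Gam

theorem hasT_KK (hT : S_TTK) (b : Bool) : HasT (KK b) :=
  hasT_surj (Subgroup.subgroupOfEquivOfLe (EE_le b)).symm.toMonoidHom
    (Subgroup.subgroupOfEquivOfLe (EE_le b)).symm.surjective (hT b)

theorem FO_aux {G : Type} [Group G] (H L : Subgroup G) (hL : L ≤ H) (g : H)
    (h : FO (L.subgroupOf H) g) : {x : G | ∃ k ∈ L, x = k * (g : G) * k⁻¹}.Finite := by
  refine (h.image Subtype.val).subset ?_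
  rintro x ⟨k, hk, rfl⟩
  refine ⟨⟨k, hL hk⟩ * g * ⟨k, hL hk⟩⁻¹, ⟨⟨k, hL hk⟩, ?_, rfl⟩, rfl⟩
  rw [Subgroup.mem_subgroupOf]
  exact hk

theorem FO_KK (b : Bool) (g : Gam) (h : FO (KK b) g) :
    {x : GLM | ∃ k ∈ EE (RR b), x = k * (g : GLM) * k⁻¹}.Finite :=
  FO_aux Gam (EE (RR b)) (EE_le b) g h

theorem gen_top : KK false ⊔ KK true ⊔ Subgroup.zpowers (⟨hG, hG_mem⟩ : Gam) = ⊤ := by
  apply Subgroup.map_injective Gam.subtype_injective
  rw [Subgroup.map_sup, Subgroup.map_sup, KK, KK, Subgroup.subgroupOf_map_subtype,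
    Subgroup.subgroupOf_map_subtype, MonoidHom.map_zpowers, inf_eq_left.2 (EE_le false),
    inf_eq_left.2 (EE_le true)]
  rw [← MonoidHom.range_eq_map, Subgroup.range_subtype]
  rfl

theorem countable_of_hasT {G : Type} [Group G] (h : HasT G) : Countable G := by
  obtain ⟨k, γ, hγ⟩ := Pool.Agent.N303.KQ.exists_free h
  exact hγ.countable

theorem countable_gam (hT : S_TTK) : Countable Gam := by
  have h1 := countable_of_hasT (hasT_KK hT false)
  have h2 := countable_of_hasT (hasT_KK hT true)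
  set S : Set Gam := (KK false : Set Gam) ∪ (KK true : Set Gam) ∪
    {(⟨hG, hG_mem⟩ : Gam)} with hS
  have hSc : S.Countable := by
    refine Set.Countable.union (Set.Countable.union ?_ ?_) (Set.countable_singleton _)
    · exact Set.countable_coe_iff.1 h1
    · exact Set.countable_coe_iff.1 h2
  have h3 : Subgroup.closure S = ⊤ := by
    rw [hS, Subgroup.closure_union, Subgroup.closure_union, Subgroup.closure_eq,
      Subgroup.closure_eq, ← Subgroup.zpowers_eq_closure]
    exact gen_top
  have h4 : Countable S := hSc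
  have h5 : Function.Surjective (FreeGroup.lift (Subtype.val : S → Gam)) := by
    rw [← MonoidHom.range_eq_top, FreeGroup.range_lift_eq_closure, Subtype.range_coe]
    exact h3
  exact h5.countable

theorem grp (hT : S_TTK) (hC : S_CONJ) (hU : S_UNQ) (hMN : S_MON) (hD : S_DET) (hF : S_FCI)
    (hN : S_CEN) (hY : S_CYC) (hGL : S_GLF) (hE : S_EXT) : S_GRP := by
  obtain ⟨m1, m2, l1, l2, hl1, hl2, a1, a2, a3, a4, a5⟩ := hMN
  refine ⟨Gam, inferInstance, countable_gam hT, KK false, KK true, ⟨hG, hG_mem⟩, ⟨l1, hl1⟩,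
    ⟨l2, hl2⟩, ?_⟩
  exact
    { tK := hasT_KK hT false
      tT := hasT_KK hT true
      comm := fun k hk t ht => Subtype.ext (m2 k hk t ht)
      mono := fun k hk => m1 k hk
      gen := gen_top
      m1 := a1
      m2 := a2
      c1 := fun k hk => Subtype.ext (a3 k hk)
      c2 := fun k hk => Subtype.ext (a4 k hk)
      nc := fun h => a5 (congrArg Subtype.val h)
      fc := fun g h1 h2 => Subtype.ext (fc_trivial hU hD hF hN g g.2 fun b => by
        cases b
        · exact FO_KK false g h1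
        · exact FO_KK true g h2)
      sofic := sofic hC hU hD hY hGL hE }

end

end Pool.Agent.N652.OM
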