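import Pool.Agent.N652.OM.Fin
import Pool.Agent.N652.OM.Grp2
import Pool.Agent.N75.OM_GEN
import Pool.Agent.N492.OM_CONJ
import Pool.Agent.N82.OM_DET
import Pool.Agent.N763.OM_FCI
import Pool.Agent.N413.OM_CEN
import Pool.Agent.N7.OMCyc
import Pool.Agent.N664.OM_GLF
import Pool.Agent.N163.OM_EXT
import Pool.Agent.N221.OM_MON
import Pool.Agent.N362.OM.Gap
import Pool.Agent.N897.OM_NG
import Pool.Agent.N478.OM_CORE2
import Pool.Agent.N78.OM_FIN2
import Pool.Agent.N342.OM_LIFT
import Pool.Agent.N284.OM_DENS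
import Pool.Agent.N681.OM_DIAG
import Pool.Agent.N277.OM_MUB
import Pool.Agent.N531.OM_SOFQ
import Pool.Agent.N652.OM.EMB

/-!
# Project OM: all parts
-/

set_option autoImplicit false

namespace Pool.Agent.N652.OM

/-- the group -/
theorem t_GRP : S_GRP :=
  grp (Pool.Agent.N717.OM_TTK.main Pool.Agent.N75.OMGEN.main) Pool.Agent.N492.OMConj.conj
    Pool.Agent.N492.OMConj.unq (Pool.Agent.N221.OM_MON.main Pool.Agent.N492.OMConj.conj)
    (Pool.Agent.N82.OM_DET.main Pool.Agent.N492.OMConj.conj) Pool.Agent.N763.OMFCI.main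
    Pool.Agent.N413.OM_CEN.main Pool.Agent.N7.OMCyc.main Pool.Agent.N664.OMGLF.main
    Pool.Agent.N163.OMExt.main

/-- irreducible embeddings give irreducible approximations -/
theorem t_ULT : S_ULT :=
  ult Pool.Agent.N342.OMLift.main Pool.Agent.N284.OMD.main Pool.Agent.N681.OM.main

/-- the final statement -/
theorem t_FINAL : S_FINAL :=
  final t_GRP Pool.Agent.N362.OM.main Pool.Agent.N897.OMNG.main
    (Pool.Agent.N78.OM.FIN2.main Pool.Agent.N478.OM.main) t_ULT Pool.Agent.N531.OM_SOFQ.main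
    (EM.emb Pool.Agent.N277.OM_MUB.main)

end Pool.Agent.N652.OM
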