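import Pool.Agent.N44.NS.Defs

/-!
# Project OM: a sofic group whose factor has no irreducible embedding: definitions
-/

set_option autoImplicit false

namespace Pool.Agent.N652.OM

open Pool.Agent.N44.NS (el)

noncomputable section

instance p257 : Fact (Nat.Prime 257) := ⟨by norm_num⟩

/-- the field with 257 elements -/
abbrev F := ZMod 257

/-- finitely supported functions on the union of the lines `ℤ × {b}`, `b : B` -/
abbrev Vc (B : Type) := (ℤ × B) →₀ F

/-- all linear operators on `Vc B` -/
abbrev MM (B : Type) := Module.End F (Vc B)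

/-- the element `∑ p_k e_(j + k, b)` -/
def sh {B : Type} (b : B) (j : ℤ) (p : LaurentPolynomial F) : Vc B :=
  Finsupp.mapDomain (fun k : ℤ => (j + k, b)) p.coeff

/-- `x` is, outside a finite part of each line, the translation invariant operator with the
symbol `p`. -/
def Sy {B : Type} (x : MM B) (p : B → LaurentPolynomial F) : Prop :=
  ∃ N : ℕ, ∀ (b : B) (j : ℤ), (N : ℤ) ≤ |j| → x (Finsupp.single (j, b) 1) = sh b j (p b)

variable {B : Type}

theorem sh_add (b : B) (j : ℤ) (p q : LaurentPolynomial F) :
    sh b j (p + q) = sh b j p + sh b j q := by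
  unfold sh
  rw [AddMonoidAlgebra.coeff_add, Finsupp.mapDomain_add]

theorem sh_smul (b : B) (j : ℤ) (c : F) (p : LaurentPolynomial F) :
    sh b j (c • p) = c • sh b j p := by
  unfold sh
  rw [AddMonoidAlgebra.coeff_smul, Finsupp.mapDomain_smul]

theorem sh_one (b : B) (j : ℤ) : sh b j (1 : LaurentPolynomial F) = Finsupp.single (j, b) 1 := by
  unfold sh
  rw [AddMonoidAlgebra.one_def, AddMonoidAlgebra.coeff_single, Finsupp.mapDomain_single, add_zero]

theorem sh_single (b : B) (j k : ℤ) (c : F) :
    sh b j (AddMonoidAlgebra.single k c) = Finsupp.single (j + k, b) c := by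
  unfold sh
  rw [AddMonoidAlgebra.coeff_single, Finsupp.mapDomain_single]

theorem Sy.one : Sy (1 : MM B) 1 := ⟨0, fun b j _ => by rw [Pi.one_apply, sh_one]; rfl⟩

theorem Sy.add {x y : MM B} {p q : B → LaurentPolynomial F} (hx : Sy x p) (hy : Sy y q) :
    Sy (x + y) (p + q) := by
  obtain ⟨N, hN⟩ := hx
  obtain ⟨M, hM⟩ := hy
  refine ⟨max N M, fun b j hj => ?_⟩
  have h1 : (N : ℤ) ≤ |j| := le_trans (by exact_mod_cast le_max_left N M) hj
  have h2 : (M : ℤ) ≤ |j| := le_trans (by exact_mod_cast le_max_right N M) hj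
  rw [LinearMap.add_apply, hN b j h1, hM b j h2, Pi.add_apply, sh_add]

theorem Sy.smul {x : MM B} {p : B → LaurentPolynomial F} (c : F) (hx : Sy x p) :
    Sy (c • x) (c • p) := by
  obtain ⟨N, hN⟩ := hx
  refine ⟨N, fun b j hj => ?_⟩
  rw [LinearMap.smul_apply, hN b j hj, Pi.smul_apply, sh_smul]

/-- a linear map is computed on `sh` from its values on the basis vectors -/
theorem apply_sh (x : MM B) (b : B) (j : ℤ) (q : LaurentPolynomial F) :
    x (sh b j q) = q.coeff.sum fun k c => c • x (Finsupp.single (j + k, b) 1) := by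
  unfold sh
  rw [Finsupp.mapDomain, Finsupp.sum, map_sum, Finsupp.sum]
  refine Finset.sum_congr rfl fun k _ => ?_
  rw [← map_smul, Finsupp.smul_single, smul_eq_mul, mul_one]

theorem sh_mul (b : B) (j : ℤ) (p q : LaurentPolynomial F) :
    sh b j (p * q) = q.coeff.sum fun k c => c • sh b (j + k) p := by
  induction q using AddMonoidAlgebra.induction_linear with
  | zero => simp [sh]
  | add f g hf hg =>
    rw [mul_add, sh_add, hf, hg, AddMonoidAlgebra.coeff_add, Finsupp.sum_add_index']
    · intro a; rw [zero_smul]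
    · intro a c d; rw [add_smul]
  | single k c =>
    rw [AddMonoidAlgebra.coeff_single, Finsupp.sum_single_index (by rw [zero_smul])]
    induction p using AddMonoidAlgebra.induction_linear with
    | zero => simp [sh]
    | add f g hf hg => rw [add_mul, sh_add, hf, hg, sh_add, smul_add]
    | single l d =>
      rw [AddMonoidAlgebra.single_mul_single, sh_single, sh_single, Finsupp.smul_single,
        smul_eq_mul, mul_comm c d, add_comm l k, add_assoc]

theorem Sy.mul {x y : MM B} {p q : B → LaurentPolynomial F} (hx : Sy x p) (hy : Sy y q)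
    [Finite B] : Sy (x * y) (p * q) := by
  obtain ⟨N, hN⟩ := hx
  obtain ⟨M, hM⟩ := hy
  have := Fintype.ofFinite B
  classical
  -- a bound for the degrees of `q`
  obtain ⟨L, hL⟩ : ∃ L : ℕ, ∀ b, ∀ k ∈ (q b).coeff.support, |k| ≤ L := by
    refine ⟨∑ b, ∑ k ∈ (q b).coeff.support, k.natAbs, fun b k hk => ?_⟩
    have h1 : k.natAbs ≤ ∑ k ∈ (q b).coeff.support, k.natAbs :=
      Finset.single_le_sum (f := fun k : ℤ => k.natAbs) (fun _ _ => Nat.zero_le _) hk
    have h2 : ∑ k ∈ (q b).coeff.support, k.natAbs ≤ ∑ b, ∑ k ∈ (q b).coeff.support, k.natAbs :=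
      Finset.single_le_sum (f := fun b => ∑ k ∈ (q b).coeff.support, k.natAbs)
        (fun _ _ => Nat.zero_le _) (Finset.mem_univ b)
    have h3 := h1.trans h2
    rw [Int.abs_eq_natAbs]
    exact_mod_cast h3
  refine ⟨max M (N + L), fun b j hj => ?_⟩
  have h1 : (M : ℤ) ≤ |j| := le_trans (by exact_mod_cast le_max_left M (N + L)) hj
  have h2 : ((N + L : ℕ) : ℤ) ≤ |j| := le_trans (by exact_mod_cast le_max_right M (N + L)) hj
  rw [Module.End.mul_apply, hM b j h1, Pi.mul_apply, apply_sh, sh_mul]
  refine Finset.sum_congr rfl fun k hk => ?_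
  dsimp only
  rw [hN b (j + k) ?_]
  have h3 := hL b k hk
  have h4 : |j| ≤ |j + k| + |k| := by
    have := abs_add_le (j + k) (-k)
    rw [add_neg_cancel_right, abs_neg] at this
    exact this
  push_cast at h2
  linarith

/-- the operators which have a symbol -/
def Sg (B : Type) [Finite B] : Subalgebra F (MM B) where
  carrier := {x | ∃ p, Sy x p}
  mul_mem' := by
    rintro x y ⟨p, hp⟩ ⟨q, hq⟩
    exact ⟨_, hp.mul hq⟩
  add_mem' := by
    rintro x y ⟨p, hp⟩ ⟨q, hq⟩
    exact ⟨_, hp.add hq⟩
  algebraMap_mem' := by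
    intro c
    refine ⟨c • 1, ?_⟩
    rw [Algebra.algebraMap_eq_smul_one]
    exact Sy.one.smul c

theorem neg_mem_Sg {B : Type} [Finite B] {x : MM B} (h : x ∈ Sg B) : -x ∈ Sg B := by
  have h1 := (Sg B).smul_mem h (-1 : F)
  have h2 : (-1 : F) • x = -x := by
    refine LinearMap.ext fun v => ?_
    rw [LinearMap.smul_apply, LinearMap.neg_apply, neg_smul, one_smul]
  rwa [h2] at h1

instance negSg (B : Type) [Finite B] : Neg (Sg B) := ⟨fun x => ⟨-x.1, neg_mem_Sg x.2⟩⟩

instance ringSg (B : Type) [Finite B] : Ring (Sg B) :=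
  { (inferInstance : Semiring (Sg B)) with
    neg := Neg.neg
    neg_add_cancel := fun x => Subtype.ext (neg_add_cancel x.1)
    zsmul := zsmulRec }

/-- the operators with a symbol which live on the line `b` -/
def RR (b : Bool) : Set (MM Bool) :=
  {x | (∃ p, Sy x p) ∧ (∀ j : ℤ, x (Finsupp.single (j, !b) 1) = 0) ∧
    ∀ (v : Vc Bool) (j : ℤ), x v (j, !b) = 0}

/-- the group generated by the elementary matrices with entries in `R` -/
def EE (R : Set (MM Bool)) : Subgroup (Matrix (Fin 3) (Fin 3) (MM Bool))ˣ :=
  Subgroup.closure {g | ∃ (i j : Fin 3) (h : i ≠ j), ∃ a ∈ R, g = el i j h a}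

/-- the shift of the points `a_i`: `a_i = (i, false)` for `i < 0`, `a_i = (i, true)` for `0 ≤ i` -/
def hv : Equiv.Perm (ℤ × Bool) where
  toFun w := match w with
    | (i, false) => if i = -1 then (0, true) else if i < 0 then (i + 1, false) else (i, false)
    | (i, true) => if 0 ≤ i then (i + 1, true) else (i, true)
  invFun w := match w with
    | (i, false) => if i < 0 then (i - 1, false) else (i, false)
    | (i, true) => if i = 0 then (-1, false) else if 0 < i then (i - 1, true) else (i, true)
  left_inv := by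
    rintro ⟨i, b⟩
    cases b
    · by_cases h1 : i = -1
      · subst h1; rfl
      · by_cases h2 : i < 0
        · simp only [h1, h2, if_true, if_false]
          rw [if_pos (by omega)]
          simp
        · simp only [h1, h2, if_false]
    · by_cases h1 : 0 ≤ i
      · simp only [h1, if_true]
        rw [if_neg (by omega), if_pos (by omega)]
        simp
      · simp only [h1, if_false]
        rw [if_neg (by omega), if_neg (by omega)]
  right_inv := by
    rintro ⟨i, b⟩
    cases b
    · by_cases h1 : i < 0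
      · simp only [h1, if_true]
        rw [if_neg (by omega), if_pos (by omega)]
        simp
      · simp only [h1, if_false]
        rw [if_neg (by omega)]
    · by_cases h1 : i = 0
      · subst h1; rfl
      · by_cases h2 : 0 < i
        · simp only [h1, h2, if_true, if_false]
          rw [if_pos (by omega)]
          simp
        · simp only [h1, h2, if_false]
          rw [if_neg (by omega)]

/-- the operator of `hv` -/
def hM : (MM Bool)ˣ :=
  LinearMap.GeneralLinearGroup.ofLinearEquiv (Finsupp.domLCongr hv)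

/-- the diagonal matrix with entries `hM` -/
def hG : (Matrix (Fin 3) (Fin 3) (MM Bool))ˣ :=
  Units.map (Matrix.scalar (Fin 3) : MM Bool →+* _).toMonoidHom hM

/-- the group -/
def Gam : Subgroup (Matrix (Fin 3) (Fin 3) (MM Bool))ˣ :=
  EE (RR false) ⊔ EE (RR true) ⊔ Subgroup.zpowers hG

/-- the matrix unit `e_w e_w'ᵀ` times `c` -/
def eu (w w' : ℤ × Bool) (c : F) : MM Bool :=
  (Finsupp.lsingle w).comp ((LinearMap.lsmul F F c).comp (Finsupp.lapply w'))

end

end Pool.Agent.N652.OM
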