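import Pool.Agent.N652.OM.MUX

/-!
# The matrix ultraproduct exists

The proof is the one of helper278 (`Pool/Agent/Helper278/MUConv.lean`; that file cannot be imported
together with the files on `L(G)` because of a name clash).
-/

set_option autoImplicit false
set_option linter.unusedSectionVars false

open scoped Topology
open Filter

namespace Pool.Agent.N652.OM

open Pool.Agent.Helper278 Pool.Agent.N652.OM.MX

theorem matUltraExists (U : Ultrafilter ℕ) : MatUltraExists U := by
  classical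
  obtain ⟨Q, i1, i2, i3, i4, π, τ, h⟩ := exists_matUltra U
  refine ⟨Q, i1, i2, i3, i4, fun x => if hx : NormBounded x then π ⟨x, hx⟩ else 0, τ, ?_⟩
  have key : ∀ (x : ∀ n, Mat n) (hx : NormBounded x),
      (if hx : NormBounded x then π ⟨x, hx⟩ else 0) = π ⟨x, hx⟩ := fun x hx => dif_pos hx
  refine ⟨?_, ?_, ?_, ?_, ?_, ?_, ?_, ?_⟩
  · have h1 : NormBounded (fun _ => 1) := (1 : BddSeq).2
    rw [key _ h1]
    exact map_one π
  · intro x y hx hy
    have h1 : NormBounded (fun n => x n + y n) := BddSeq.add_mem hx hy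
    rw [key _ h1, key _ hx, key _ hy]
    have h2 : π ((⟨x, hx⟩ : BddSeq) + ⟨y, hy⟩) = π ⟨x, hx⟩ + π ⟨y, hy⟩ := map_add π _ _
    rw [← h2]
    exact congrArg π (Subtype.ext rfl)
  · intro x y hx hy
    have h1 : NormBounded (fun n => x n * y n) := BddSeq.mul_mem hx hy
    rw [key _ h1, key _ hx, key _ hy]
    have h2 : π ((⟨x, hx⟩ : BddSeq) * ⟨y, hy⟩) = π ⟨x, hx⟩ * π ⟨y, hy⟩ := map_mul π _ _
    rw [← h2]
    exact congrArg π (Subtype.ext rfl)
  · intro c x hx
    have h1 : NormBounded (fun n => c • x n) := BddSeq.smul_mem hx c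
    rw [key _ h1, key _ hx]
    have h2 : π (c • (⟨x, hx⟩ : BddSeq)) = c • π ⟨x, hx⟩ := map_smul π c _
    rw [← h2]
    exact congrArg π (Subtype.ext rfl)
  · intro x hx
    have h1 : NormBounded (fun n => star (x n)) := BddSeq.star_mem' hx
    rw [key _ h1, key _ hx]
    have h2 : π (star (⟨x, hx⟩ : BddSeq)) = star (π ⟨x, hx⟩) := map_star π _
    rw [← h2]
    exact congrArg π (Subtype.ext rfl)
  · intro q
    obtain ⟨x, rfl⟩ := h.surj q
    exact ⟨x.1, x.2, key _ x.2⟩
  · intro x hx
    rw [key _ hx]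
    exact h.ker ⟨x, hx⟩
  · intro x hx
    rw [key _ hx]
    exact h.trace ⟨x, hx⟩


end Pool.Agent.N652.OM
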