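import Pool.Agent.N652.OM.Ult
import Pool.Agent.N652.OM.MUE
import Pool.Agent.Helper436.SN.CEG

/-!
# Project OM: final assembly
-/

set_option autoImplicit false

namespace Pool.Agent.N652.OM

open Pool.Agent.Helper278 Pool.Agent.Helper436.SM Pool.Agent.Helper436.SN
open Pool.Agent.W661.RC Pool.Agent.N303.KQ
open Matrix Filter Topology
open scoped ComplexOrder InnerProductSpace

noncomputable section

theorem trL_faithful (Γ : Type) [Group Γ] : ∀ x : Elt (LG Γ), trL Γ (star x * x) = 0 → x = 0 :=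
  transport Γ (fun _ τ => ∀ x, τ (star x * x) = 0 → x = 0)
    (Pool.Agent.Helper278.RG.TL (Pool.Agent.Helper278.CE.sb Γ)).faithful

theorem final (hG : S_GRP) (hgap : S_GAP) (hng : S_NG) (hF : S_FIN2) (hU : S_ULT) (hS : S_SOFQ)
    (hE : S_EMB) : S_FINAL := by
  obtain ⟨Γ, _, _, K, T, h, l1, l2, hD⟩ := hG
  have hnt : Nontrivial Γ := ⟨l1 * l2, l2 * l1, hD.nc⟩
  obtain ⟨hicc, hnog⟩ := hng Γ (hgap Γ K T hD.tK hD.tT hD.fc)
  refine ⟨EllTwo Γ, inferInstance, inferInstance, inferInstance, LG Γ, trL Γ, iiOne_LG Γ hicc,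
    sep_LG Γ, hnog, fun U hfree => ⟨matUltraExists U, fun Q _ _ _ _ π φ hπ => ⟨?_, ?_⟩⟩⟩
  · obtain ⟨q, hq1, hq2⟩ := hS U hfree Q π φ hπ Γ hD.sofic
    obtain ⟨θ, hθ⟩ := hE U hfree Q π φ hπ Γ q hq1 hq2
    refine ⟨θ, ?_, hθ⟩
    rw [injective_iff_map_eq_zero]
    intro x hx
    apply trL_faithful Γ
    have h0 : φ 0 = 0 := by
      rw [← map_zero θ, hθ]
      show ⟪dirac Γ, ((0 : Elt (LG Γ)) : EllTwo Γ →L[ℂ] EllTwo Γ) (dirac Γ)⟫_ℂ = 0
      have : (((0 : Elt (LG Γ)) : EllTwo Γ →L[ℂ] EllTwo Γ) (dirac Γ)) = 0 := rfl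
      rw [this, inner_zero_right]
    rw [← hθ, map_mul, hx, mul_zero, h0]
  · intro θ hθ
    by_contra hcon
    have hirr : ∀ y : Q, (∀ x, y * θ x = θ x * y) → ∃ c : ℂ, y = algebraMap ℂ Q c := by
      intro y hy
      by_contra hc
      exact hcon ⟨y, hy, fun c hc2 => hc ⟨c, hc2⟩⟩
    obtain ⟨k, γ, w, κ, hγ, hw, hκ, hfin⟩ := hF Γ K T h l1 l2 hD
    obtain ⟨V, hV1, hV2, hV3⟩ := hU U hfree Γ Q π φ hπ θ hθ hirr k γ hγ
    obtain ⟨δ, hδ, hδ2⟩ := hV3 κ hκ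
    obtain ⟨ε, R, hε, hR, hfin⟩ := hfin δ hδ
    have hw1 : γ w ≠ 1 := by
      rw [hw]
      intro h1
      apply hD.nc
      have h2 : l1 * l2 = l1 * l2 * l1⁻¹ * l2⁻¹ * (l2 * l1) := by group
      rw [h2, h1, one_mul]
    have e1 : ∀ᶠ n in (U : Filter ℕ), ∀ r ∈ R, hs ((FreeGroup.lift (V n) r).1 - 1) / n < ε := by
      rw [Filter.eventually_all_finset]
      intro r hr
      exact (hV1 r (hR r hr)).eventually (gt_mem_nhds hε)
    have e2 : ∀ᶠ n in (U : Filter ℕ), 1 < hs ((FreeGroup.lift (V n) w).1 - 1) / n :=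
      (hV2 w hw1).eventually (lt_mem_nhds (by norm_num))
    have e3 : ∀ᶠ n in (U : Filter ℕ), n ≠ 0 := by
      have := Ultrafilter.compl_mem_iff_notMem.2 (hfree 0)
      filter_upwards [this] with n hn
      simpa using hn
    obtain ⟨n, ⟨⟨h1, h2⟩, h3⟩, h4⟩ := (((e1.and e2).and e3).and hδ2).exists
    have hn : 0 < n := Nat.pos_of_ne_zero h3
    have hn' : (0 : ℝ) < n := by exact_mod_cast hn
    have h5 := hfin n (V n) hn (fun r hr => ((div_lt_iff₀ hn').1 (h1 r hr)).le) h4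
    rw [lt_div_iff₀ hn'] at h2
    linarith

end

end Pool.Agent.N652.OM
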