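import Pool.Agent.N652.OM.Stm


/-!
# Project OM: assembly of the group theoretic part
-/

set_option autoImplicit false

namespace Pool.Agent.N652.OM

open Pool.Agent.N44.NS (el E3 LEF)
open Pool.Agent.W661.RC (HasT)
open Pool.Agent.H21R2 (IsSofic)

noncomputable section

abbrev LP := LaurentPolynomial F
abbrev GLM := (Matrix (Fin 3) (Fin 3) (MM Bool))ˣ

/-- the translation invariant operator with a given symbol -/
def opS {B : Type} (p : B → LP) : MM B :=
  Finsupp.lsum F fun w : ℤ × B => LinearMap.toSpanSingleton F (Vc B) (sh w.2 w.1 (p w.2))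

theorem opS_single {B : Type} (p : B → LP) (b : B) (j : ℤ) :
    opS p (Finsupp.single (j, b) 1) = sh b j (p b) := by
  unfold opS
  rw [Finsupp.lsum_single, LinearMap.toSpanSingleton_apply, one_smul]

theorem Sy_opS {B : Type} (p : B → LP) : Sy (opS p) p := ⟨0, fun b j _ => opS_single p b j⟩

theorem Sy.congr {B : Type} {x y : MM B} {p : B → LP} (hx : Sy x p)
    (h : ∃ N : ℕ, ∀ (b : B) (j : ℤ), (N : ℤ) ≤ |j| →
      x (Finsupp.single (j, b) 1) = y (Finsupp.single (j, b) 1)) : Sy y p := by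
  obtain ⟨N, hN⟩ := hx
  obtain ⟨M, hM⟩ := h
  refine ⟨max N M, fun b j hj => ?_⟩
  have h1 : (N : ℤ) ≤ |j| := le_trans (by exact_mod_cast le_max_left N M) hj
  have h2 : (M : ℤ) ≤ |j| := le_trans (by exact_mod_cast le_max_right N M) hj
  rw [← hM b j h2, hN b j h1]

theorem Sy.zero {B : Type} : Sy (0 : MM B) 0 :=
  ⟨0, fun b j _ => by rw [Pi.zero_apply]; simp [sh]⟩

theorem Sy.sum {B ι : Type} (s : Finset ι) (x : ι → MM B) (p : ι → B → LP)
    (h : ∀ i ∈ s, Sy (x i) (p i)) : Sy (∑ i ∈ s, x i) (∑ i ∈ s, p i) := by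
  classical
  induction s using Finset.induction_on with
  | empty => simpa using Sy.zero
  | insert a s ha ih =>
    rw [Finset.sum_insert ha, Finset.sum_insert ha]
    exact (h a (Finset.mem_insert_self _ _)).add (ih fun i hi => h i (Finset.mem_insert_of_mem hi))

/-- the matrix `A` of operators has the matrix `P` of symbols -/
def SM (A : Matrix (Fin 3) (Fin 3) (MM Bool)) (P : Matrix (Fin 3) (Fin 3) (Bool → LP)) : Prop :=
  ∀ i j, Sy (A i j) (P i j)

theorem SM.mul {A A' : Matrix (Fin 3) (Fin 3) (MM Bool)}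
    {P P' : Matrix (Fin 3) (Fin 3) (Bool → LP)} (h : SM A P) (h' : SM A' P') :
    SM (A * A') (P * P') := by
  intro i j
  rw [Matrix.mul_apply, Matrix.mul_apply]
  exact Sy.sum _ _ _ fun k _ => (h i k).mul (h' k j)

theorem SM.one : SM 1 1 := by
  intro i j
  rw [Matrix.one_apply, Matrix.one_apply]
  split
  · exact Sy.one
  · exact Sy.zero

/-- the inverse of a matrix of operators with an invertible matrix of symbols -/
theorem SM.inv {A A' : Matrix (Fin 3) (Fin 3) (MM Bool)} {P P' : Matrix (Fin 3) (Fin 3) (Bool → LP)}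
    (h : SM A P) (hA : A' * A = 1) (hP : P * P' = 1) : SM A' P' := by
  -- the matrix of the translation invariant operators
  set Bm : Matrix (Fin 3) (Fin 3) (MM Bool) := fun i j => opS (P' i j) with hB
  have hBm : SM Bm P' := fun i j => Sy_opS _
  have h1 : SM (A * Bm) 1 := by
    have := h.mul hBm
    rwa [hP] at this
  have h2 : A' * (A * Bm) = Bm := by rw [← Matrix.mul_assoc, hA, Matrix.one_mul]
  intro i j
  refine (hBm i j).congr ?_
  choose N hN using h1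
  refine ⟨∑ k, N k j, fun b m hm => ?_⟩
  have h3 : Bm i j (Finsupp.single (m, b) 1) =
      ∑ k, A' i k ((A * Bm) k j (Finsupp.single (m, b) 1)) := by
    conv_lhs => rw [← h2]
    rw [Matrix.mul_apply, LinearMap.sum_apply]
    rfl
  rw [h3]
  have h4 : ∀ k, (A * Bm) k j (Finsupp.single (m, b) 1) =
      if k = j then Finsupp.single (m, b) 1 else 0 := by
    intro k
    rw [hN k j b m]
    · rw [Matrix.one_apply]
      split
      · rw [Pi.one_apply, sh_one]
      · rw [Pi.zero_apply]; simp [sh]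
    · refine le_trans ?_ hm
      exact_mod_cast Finset.single_le_sum (f := fun k => N k j) (fun _ _ => Nat.zero_le _)
        (Finset.mem_univ k)
  simp only [h4]
  rw [Finset.sum_eq_single j]
  · rw [if_pos rfl]
  · intro k _ hk
    rw [if_neg hk, map_zero]
  · intro hj
    exact absurd (Finset.mem_univ j) hj

theorem hG_zpow (n : ℤ) : hG ^ n = Units.map (Matrix.scalar (Fin 3) : MM Bool →+* _).toMonoidHom
    (hM ^ n) := by
  unfold hG
  rw [map_zpow]

theorem hG_zpow_val (n : ℤ) : (hG ^ n).1 = Matrix.scalar (Fin 3) ((hM ^ n : (MM Bool)ˣ) : MM Bool) := by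
  rw [hG_zpow]
  rfl

theorem scalar_mul_apply' (x : MM Bool) (A : Matrix (Fin 3) (Fin 3) (MM Bool)) (i j : Fin 3) :
    (Matrix.scalar (Fin 3) x * A) i j = x * A i j := by
  rw [Matrix.scalar_apply, Matrix.diagonal_mul]

theorem mul_scalar_apply' (x : MM Bool) (A : Matrix (Fin 3) (Fin 3) (MM Bool)) (i j : Fin 3) :
    (A * Matrix.scalar (Fin 3) x) i j = A i j * x := by
  rw [Matrix.scalar_apply, Matrix.mul_diagonal]

theorem conj_zpow (hC : S_CONJ) (n : ℤ) (x : MM Bool) (p : Bool → LP) (h : Sy x p) :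
    Sy (((hM ^ n : (MM Bool)ˣ) : MM Bool) * x * ((hM ^ (-n) : (MM Bool)ˣ) : MM Bool)) p := by
  induction n using Int.induction_on with
  | zero => simpa using h
  | succ n ih =>
    have h1 := (hC _ _ ih).1
    have e : ((hM ^ ((n : ℤ) + 1) : (MM Bool)ˣ) : MM Bool) * x *
        ((hM ^ (-((n : ℤ) + 1)) : (MM Bool)ˣ) : MM Bool) =
        (hM : MM Bool) * (((hM ^ (n : ℤ) : (MM Bool)ˣ) : MM Bool) * x *
          ((hM ^ (-(n : ℤ)) : (MM Bool)ˣ) : MM Bool)) * ((hM⁻¹ : (MM Bool)ˣ) : MM Bool) := by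
      have e1 : hM ^ ((n : ℤ) + 1) = hM * hM ^ (n : ℤ) := by rw [add_comm, zpow_one_add]
      have e2 : hM ^ (-((n : ℤ) + 1)) = hM ^ (-(n : ℤ)) * hM⁻¹ := by
        rw [neg_add, zpow_add, zpow_neg_one]
      rw [e1, e2, Units.val_mul, Units.val_mul]
      simp only [mul_assoc]
    rw [e]
    exact h1
  | pred n ih =>
    have h1 := (hC _ _ ih).2
    have e : ((hM ^ (-(n : ℤ) - 1) : (MM Bool)ˣ) : MM Bool) * x *
        ((hM ^ (-(-(n : ℤ) - 1)) : (MM Bool)ˣ) : MM Bool) =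
        ((hM⁻¹ : (MM Bool)ˣ) : MM Bool) * (((hM ^ (-(n : ℤ)) : (MM Bool)ˣ) : MM Bool) * x *
          ((hM ^ (-(-(n : ℤ))) : (MM Bool)ˣ) : MM Bool)) * (hM : MM Bool) := by
      have e1 : hM ^ (-(n : ℤ) - 1) = hM⁻¹ * hM ^ (-(n : ℤ)) := by
        rw [sub_eq_add_neg, add_comm, zpow_add, zpow_neg_one]
      have e2 : hM ^ (-(-(n : ℤ) - 1)) = hM ^ (-(-(n : ℤ))) * hM := by
        rw [neg_sub, sub_neg_eq_add, add_comm, neg_neg, zpow_add_one]
      rw [e1, e2, Units.val_mul, Units.val_mul]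
      simp only [mul_assoc]
    rw [e]
    exact h1

/-- `g` has, up to the power `h^n`, a symbol of determinant one -/
def HS (g : GLM) (n : ℤ) (P : Matrix (Fin 3) (Fin 3) (Bool → LP)) : Prop :=
  SM (g * hG ^ (-n)).1 P ∧ P.det = 1

theorem HS.mul (hC : S_CONJ) {g g' : GLM} {n n' : ℤ} {P P' : Matrix (Fin 3) (Fin 3) (Bool → LP)}
    (h : HS g n P) (h' : HS g' n' P') : HS (g * g') (n + n') (P * P') := by
  refine ⟨?_, by rw [Matrix.det_mul, h.2, h'.2, one_mul]⟩
  have e : g * g' * hG ^ (-(n + n')) = (g * hG ^ (-n)) * (hG ^ n * (g' * hG ^ (-n')) * hG ^ (-n)) := by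
    rw [neg_add, zpow_add]
    have : hG ^ (-n) * hG ^ n = 1 := by rw [← zpow_add, neg_add_cancel, zpow_zero]
    have h2 : hG ^ (-n) * hG ^ (-n') = hG ^ (-n') * hG ^ (-n) := by
      rw [← zpow_add, ← zpow_add, add_comm]
    calc g * g' * (hG ^ (-n) * hG ^ (-n')) = g * 1 * (g' * (hG ^ (-n') * hG ^ (-n))) := by
          rw [h2]; group
      _ = g * (hG ^ (-n) * hG ^ n) * (g' * (hG ^ (-n') * hG ^ (-n))) := by rw [this]
      _ = _ := by simp only [mul_assoc]
  rw [e, Units.val_mul]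
  refine h.1.mul ?_
  intro i j
  rw [Units.val_mul, Units.val_mul, hG_zpow_val, hG_zpow_val, mul_scalar_apply',
    scalar_mul_apply']
  exact conj_zpow hC n _ _ (h'.1 i j)

theorem inv_det {P : Matrix (Fin 3) (Fin 3) (Bool → LP)} (h : P.det = 1) : P * P⁻¹ = 1 :=
  Matrix.mul_nonsing_inv _ (by rw [h]; exact isUnit_one)

theorem HS.unique (hU : S_UNQ) {g : GLM} {n n' : ℤ}
    {P P' : Matrix (Fin 3) (Fin 3) (Bool → LP)} (h : HS g n P) (h' : HS g n' P') : n = n' := by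
  have h1 : SM ((g * hG ^ (-n))⁻¹).1 P⁻¹ := h.1.inv (Units.inv_mul _) (inv_det h.2)
  have h2 := h1.mul h'.1
  rw [← Units.val_mul] at h2
  have e : (g * hG ^ (-n))⁻¹ * (g * hG ^ (-n')) = hG ^ (n - n') := by
    rw [mul_inv_rev, ← zpow_neg, neg_neg, sub_eq_add_neg, zpow_add]
    group
  rw [e, hG_zpow_val] at h2
  have h3 := h2 0 0
  rw [Matrix.scalar_apply, Matrix.diagonal_apply_eq] at h3
  have := hU.2 _ _ h3
  omega

theorem LEF.of_injective {G G' : Type} [Group G] [Group G'] (f : G →* G')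
    (hf : Function.Injective f) (h : LEF G') : LEF G := by
  classical
  intro E
  obtain ⟨Q, i1, i2, φ, h1, h2⟩ := h (E.image f)
  refine ⟨Q, i1, i2, fun g => φ (f g), ?_, ?_⟩
  · intro a ha b hb hab
    beta_reduce
    rw [map_mul]
    refine h1 _ (Finset.mem_image_of_mem _ ha) _ (Finset.mem_image_of_mem _ hb) ?_
    rw [← map_mul]
    exact Finset.mem_image_of_mem _ hab
  · intro a ha b hb hab
    exact h2 _ (Finset.mem_image_of_mem _ ha) _ (Finset.mem_image_of_mem _ hb)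
      fun h => hab (hf h)

/-- the exponent of `h` -/
def eN (hD : S_DET) (g : Gam) : ℤ := (hD g g.2).choose

theorem eN_spec (hD : S_DET) (g : Gam) : ∃ P, HS (g : GLM) (eN hD g) P := by
  obtain ⟨P, h1, h2⟩ := (hD g g.2).choose_spec
  exact ⟨P, h1, h2⟩

/-- the exponent as a homomorphism -/
def eH (hC : S_CONJ) (hU : S_UNQ) (hD : S_DET) : Gam →* Multiplicative ℤ where
  toFun g := Multiplicative.ofAdd (eN hD g)
  map_one' := by
    obtain ⟨P, hP⟩ := eN_spec hD 1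
    have h1 : HS (1 : GLM) 0 1 := by
      refine ⟨?_, Matrix.det_one⟩
      rw [neg_zero, zpow_zero, mul_one]
      exact SM.one
    rw [(hP.unique hU h1 : eN hD 1 = 0)]
    rfl
  map_mul' g g' := by
    obtain ⟨P, hP⟩ := eN_spec hD g
    obtain ⟨P', hP'⟩ := eN_spec hD g'
    obtain ⟨P'', hP''⟩ := eN_spec hD (g * g')
    rw [(hP''.unique hU (hP.mul hC hP') : eN hD (g * g') = eN hD g + eN hD g')]
    rfl

theorem mem_ker (hC : S_CONJ) (hU : S_UNQ) (hD : S_DET) (g : (eH hC hU hD).ker) :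
    ∀ i j, ((g : Gam) : GLM).1 i j ∈ Sg Bool := by
  have h1 : eN hD (g : Gam) = 0 := by
    have := g.2
    rw [MonoidHom.mem_ker] at this
    exact Multiplicative.ofAdd.injective this
  obtain ⟨P, hP⟩ := eN_spec hD g
  rw [h1] at hP
  have h2 := hP.1
  rw [neg_zero, zpow_zero, mul_one] at h2
  exact fun i j => ⟨_, h2 i j⟩

/-- the values of a matrix over `Sg Bool` -/
def vM (X : Matrix (Fin 3) (Fin 3) (Sg Bool)) : Matrix (Fin 3) (Fin 3) (MM Bool) :=
  fun i j => ((X i j : Sg Bool) : MM Bool)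

theorem vM_inj {X Y : Matrix (Fin 3) (Fin 3) (Sg Bool)} (h : vM X = vM Y) : X = Y := by
  ext1 i j
  exact Subtype.ext (congrFun (congrFun h i) j)

theorem vM_mul (X Y : Matrix (Fin 3) (Fin 3) (Sg Bool)) : vM (X * Y) = vM X * vM Y := by
  ext1 i j
  show ((X * Y) i j : MM Bool) = (vM X * vM Y) i j
  rw [Matrix.mul_apply, Matrix.mul_apply, Fin.sum_univ_three, Fin.sum_univ_three]
  rfl

theorem vM_one : vM 1 = 1 := by
  ext1 i j
  show ((1 : Matrix (Fin 3) (Fin 3) (Sg Bool)) i j : MM Bool) = _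
  rw [Matrix.one_apply, Matrix.one_apply]
  split <;> rfl

/-- a matrix with entries in `Sg Bool` -/
def tM (A : Matrix (Fin 3) (Fin 3) (MM Bool)) (h : ∀ i j, A i j ∈ Sg Bool) :
    Matrix (Fin 3) (Fin 3) (Sg Bool) := fun i j => ⟨A i j, h i j⟩

theorem vM_tM (A : Matrix (Fin 3) (Fin 3) (MM Bool)) (h : ∀ i j, A i j ∈ Sg Bool) :
    vM (tM A h) = A := rfl

/-- a unit with entries in `Sg Bool` -/
def uM (g : GLM) (h : ∀ i j, g.1 i j ∈ Sg Bool) (h' : ∀ i j, g⁻¹.1 i j ∈ Sg Bool) :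
    (Matrix (Fin 3) (Fin 3) (Sg Bool))ˣ where
  val := tM g.1 h
  inv := tM g⁻¹.1 h'
  val_inv := by
    apply vM_inj
    rw [vM_mul, vM_tM, vM_tM, vM_one]
    exact g.mul_inv
  inv_val := by
    apply vM_inj
    rw [vM_mul, vM_tM, vM_tM, vM_one]
    exact g.inv_mul

theorem uM_val (g : GLM) (h : ∀ i j, g.1 i j ∈ Sg Bool) (h' : ∀ i j, g⁻¹.1 i j ∈ Sg Bool) :
    vM (uM g h h').1 = g.1 := rfl

theorem uM_one (h : ∀ i j, (1 : GLM).1 i j ∈ Sg Bool) (h' : ∀ i j, (1 : GLM)⁻¹.1 i j ∈ Sg Bool) :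
    uM 1 h h' = 1 := by
  apply Units.ext
  apply vM_inj
  exact vM_one.symm

theorem uM_mul (a b : GLM) (ha : ∀ i j, a.1 i j ∈ Sg Bool) (ha' : ∀ i j, a⁻¹.1 i j ∈ Sg Bool)
    (hb : ∀ i j, b.1 i j ∈ Sg Bool) (hb' : ∀ i j, b⁻¹.1 i j ∈ Sg Bool)
    (hc : ∀ i j, (a * b).1 i j ∈ Sg Bool) (hc' : ∀ i j, (a * b)⁻¹.1 i j ∈ Sg Bool) :
    uM (a * b) hc hc' = uM a ha ha' * uM b hb hb' := by
  apply Units.ext
  apply vM_inj
  rw [uM_val, Units.val_mul, Units.val_mul, vM_mul, uM_val, uM_val]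

theorem uM_inj (a b : GLM) (ha : ∀ i j, a.1 i j ∈ Sg Bool) (ha' : ∀ i j, a⁻¹.1 i j ∈ Sg Bool)
    (hb : ∀ i j, b.1 i j ∈ Sg Bool) (hb' : ∀ i j, b⁻¹.1 i j ∈ Sg Bool)
    (h : uM a ha ha' = uM b hb hb') : a = b := by
  apply Units.ext
  exact congrArg (fun z : (Matrix (Fin 3) (Fin 3) (Sg Bool))ˣ => vM z.1) h

/-- the kernel embeds in the matrices over `Sg Bool` -/
def kerHom (hC : S_CONJ) (hU : S_UNQ) (hD : S_DET) :
    (eH hC hU hD).ker →* (Matrix (Fin 3) (Fin 3) (Sg Bool))ˣ where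
  toFun g := uM ((g : Gam) : GLM) (mem_ker hC hU hD g) (mem_ker hC hU hD g⁻¹)
  map_one' := uM_one _ _
  map_mul' g g' := uM_mul _ _ _ _ _ _ _ _

theorem kerHom_inj (hC : S_CONJ) (hU : S_UNQ) (hD : S_DET) :
    Function.Injective (kerHom hC hU hD) := by
  intro g g' h
  apply Subtype.ext
  apply Subtype.ext
  exact uM_inj _ _ _ _ _ _ h

theorem sofic (hC : S_CONJ) (hU : S_UNQ) (hD : S_DET) (hY : S_CYC) (hGL : S_GLF) (hE : S_EXT) :
    IsSofic Gam :=
  hE _ (eH hC hU hD) (LEF.of_injective _ (kerHom_inj hC hU hD) (hGL _ hY))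

end

end Pool.Agent.N652.OM
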