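import Pool.Agent.Helper436.SN.StmtG
import Pool.Agent.Helper278.MUStmt

/-!
# Definitions for the final statement of project OM
-/

set_option autoImplicit false

namespace Pool.Agent.N652.OM

open Pool.Agent.Helper278 Pool.Agent.Helper436.SN

noncomputable section

/-- The relative commutant `{y ∈ Q | y θ(x) = θ(x) y for all x}` of the image of `θ` is `ℂ 1`. -/
def TrivialRelComm {A Q : Type} [Ring Q] [Algebra ℂ Q] (θ : A → Q) : Prop :=
  ∀ y : Q, (∀ x, y * θ x = θ x * y) → ∃ c : ℂ, y = algebraMap ℂ Q c

section

variable {A : Type} [Ring A] [StarRing A] [Algebra ℂ A]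

/-- `(A, τ)` embeds in (every model `(Q, φ)` of) the matrix ultraproduct `M^U`: there is an
injective trace preserving unital star homomorphism. -/
def EmbedsInMU (U : Ultrafilter ℕ) (τ : A → ℂ) : Prop :=
  ∀ (Q : Type) [Ring Q] [StarRing Q] [Algebra ℂ Q] [StarModule ℂ Q] (π : (∀ n, Mat n) → Q)
    (φ : Q → ℂ), IsMatrixUltraproduct U π φ →
    ∃ θ : A →⋆ₐ[ℂ] Q, Function.Injective θ ∧ ∀ x, φ (θ x) = τ x

/-- No trace preserving unital star homomorphism from `(A, τ)` to (a model `(Q, φ)` of) the matrix
ultraproduct `M^U` has a trivial relative commutant. -/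
def NoIrreducible (U : Ultrafilter ℕ) (τ : A → ℂ) : Prop :=
  ∀ (Q : Type) [Ring Q] [StarRing Q] [Algebra ℂ Q] [StarModule ℂ Q] (π : (∀ n, Mat n) → Q)
    (φ : Q → ℂ), IsMatrixUltraproduct U π φ →
    ∀ θ : A →⋆ₐ[ℂ] Q, (∀ x, φ (θ x) = τ x) → ¬ TrivialRelComm θ

/-- `A` is infinite dimensional, its center is `ℂ 1`, and `τ` is a faithful tracial state. -/
structure InfiniteTracialFactor (τ : A → ℂ) : Prop where
  center : ∀ z : A, (∀ x, z * x = x * z) → ∃ c : ℂ, z = algebraMap ℂ A c
  infinite : ¬ FiniteDimensional ℂ A
  trace : IsFaithfulTrace τ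

/-- The properties of the counterexample `(A, τ)`: a separable infinite dimensional factor with a
faithful trace and without property Gamma such that for every nonprincipal ultrafilter `U` on `ℕ`
(the matrix ultraproduct `M^U` exists) it embeds in `M^U`, but no trace preserving unital star
homomorphism to `M^U` has a trivial relative commutant. -/
structure Counterexample (τ : A → ℂ) : Prop where
  factor : InfiniteTracialFactor τ
  separable : IsSeparable τ
  nonGamma : ¬ HasGamma τ
  main : ∀ U : Ultrafilter ℕ, (∀ n, {n} ∉ U) →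
    MatUltraExists U ∧ EmbedsInMU U τ ∧ NoIrreducible U τ

end

section

variable {H : Type} [NormedAddCommGroup H] [InnerProductSpace ℂ H] [CompleteSpace H]

/-- the ring structure of the von Neumann algebra `N` -/
@[reducible] def rE (N : VonNeumannAlgebra H) : Ring (Elt N) := inferInstance

/-- the star operation of the von Neumann algebra `N` -/
@[reducible] def sE (N : VonNeumannAlgebra H) : StarRing (Elt N) := inferInstance

/-- the complex algebra structure of the von Neumann algebra `N` -/
@[reducible] def aE (N : VonNeumannAlgebra H) : Algebra ℂ (Elt N) := inferInstance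

/-- `N` with the normal functional `τ` is a counterexample (`N` is a II₁ factor). -/
def CounterexampleVN (N : VonNeumannAlgebra H) (τ : Elt N → ℂ) : Prop :=
  IsNormalPositive N τ ∧ @Counterexample (Elt N) (rE N) (sE N) (aE N) τ

end

end

end Pool.Agent.N652.OM
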