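import Pool.Agent.N652.OM.Stm
import Pool.Agent.N957.NH.Stm
import Pool.Agent.Helper436.SN.StmtG
import Pool.Agent.Helper278.MUStmt
import Pool.Agent.Helper278.CEStd

/-!
# Project OM: statements of the analytic parts
-/

set_option autoImplicit false

namespace Pool.Agent.N652.OM

open Pool.Agent.Helper278 Pool.Agent.Helper436.SM Pool.Agent.Helper436.SN
open Pool.Agent.W661.RC Pool.Agent.N303.KQ
open Pool.Agent.H21R2 (IsSofic)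
open Matrix Filter Topology
open scoped ComplexOrder

noncomputable section

/-- a spectral gap of the conjugation on `ℓ²(Γ ∖ 1)` -/
def ConjGap (Γ : Type) [Group Γ] : Prop :=
  ∃ (E : Finset Γ) (C : ℝ), 0 < C ∧ ∀ f : EllTwo Γ, f 1 = 0 → ∀ t : ℝ,
    (∀ g ∈ E, ‖permOp (MulAut.conj g).toEquiv f - f‖ ≤ t) → ‖f‖ ≤ C * t

/-- GAP: two Kazhdan subgroups. -/
def S_GAP : Prop :=
  ∀ (Γ : Type) [Group Γ] (K T : Subgroup Γ), HasT K → HasT T →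
    (∀ g, FO K g → FO T g → g = 1) → ConjGap Γ

/-- NG: a spectral gap implies icc and the negation of Gamma. -/
def S_NG : Prop :=
  ∀ (Γ : Type) [Group Γ] [Nontrivial Γ], ConjGap Γ → IsICC Γ ∧ ¬ HasGamma (trL Γ)

/-- weak irreducibility: every contraction that commutes with the `u_s` up to `δ` is a scalar up to
`κ`. -/
def IrrB {k d : ℕ} (u : Fin k → Mt d) (δ κ : ℝ) : Prop :=
  ∀ x : Mt d, Le (xᴴ * x) 1 → en u x ≤ δ * d → ∃ m : ℂ, hs (x - m • (1 : Mt d)) ≤ κ * d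

/-- CORE2: the finite-dimensional theorem with weak irreducibility. -/
def S_CORE2 : Prop :=
  ∀ (k l : ℕ) (K0 : ℝ) (v : Fin k → Fin l → FreeGroup (Fin l)) (vh : Fin l → FreeGroup (Fin l))
    (vl : Fin 2 → FreeGroup (Fin l)), 0 < K0 → ∃ κ : ℝ, 0 < κ ∧ ∀ δ : ℝ, 0 < δ → ∃ ε : ℝ, 0 < ε ∧
    ∀ (d : ℕ) (U : Fin k → unitaryGroup (Fin d) ℂ) (UK : Fin l → unitaryGroup (Fin d) ℂ)
      (H : unitaryGroup (Fin d) ℂ) (W : Fin 2 → unitaryGroup (Fin d) ℂ) (O : Out d), 0 < d →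
      (∀ a ∈ O.alg, Le (aᴴ * a) 1 → en (fun s => (UK s).1) a ≤ ε * d) →
      (∀ y : Mt d, Le (yᴴ * y) 1 → ∃ a ∈ O.alg, Le (aᴴ * a) 1 ∧
        hs (y - a) ≤ K0 * en (fun s => (UK s).1) y + ε * d) →
      (d : ℝ) - D0 O ≤ ε * d →
      IrrB (fun s => (U s).1) δ κ →
      (∀ s t, hs ((UK t).1 * (U s).1 - (U s).1 * (FreeGroup.lift UK (v s t)).1) ≤ ε * d) →
      (∀ t, hs ((UK t).1 * H.1 - H.1 * (FreeGroup.lift UK (vh t)).1) ≤ ε * d) →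
      (∀ j t, hs ((UK t).1 * (W j).1 - (W j).1 * (UK t).1) ≤ ε * d) →
      (∀ j, hs ((W j).1 * H.1 - H.1 * (FreeGroup.lift UK (vl j)).1) ≤ ε * d) →
      hs ((W 0).1 * (W 1).1 - (W 1).1 * (W 0).1) ≤ 1 / 4 * d

/-- FIN2: the finite form for the group. -/
def S_FIN2 : Prop :=
  ∀ (Γ : Type) [Group Γ] (K T : Subgroup Γ) (h l1 l2 : Γ), GD Γ K T h l1 l2 →
    ∃ (k : ℕ) (γ : FreeGroup (Fin k) →* Γ) (w : FreeGroup (Fin k)) (κ : ℝ),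
      Function.Surjective γ ∧ γ w = l1 * l2 * l1⁻¹ * l2⁻¹ ∧ 0 < κ ∧
      ∀ δ : ℝ, 0 < δ → ∃ (ε : ℝ) (R : Finset (FreeGroup (Fin k))), 0 < ε ∧ (∀ r ∈ R, γ r = 1) ∧
        ∀ (d : ℕ) (U : Fin k → unitaryGroup (Fin d) ℂ), 0 < d →
          (∀ r ∈ R, hs ((FreeGroup.lift U r).1 - 1) ≤ ε * d) →
          IrrB (fun s => (U s).1) δ κ → hs ((FreeGroup.lift U w).1 - 1) ≤ 1 / 4 * d

theorem leftReg_mem (Γ : Type) [Group Γ] (g : Γ) : leftReg Γ g ∈ LG Γ := by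
  unfold LG
  rw [CE.mem_vnGen]
  intro t ht
  rw [StarSubalgebra.mem_centralizer_iff (R := ℂ)] at ht
  have h1 := ht _ ⟨g, rfl⟩
  refine ⟨h1.1.symm, ?_⟩
  have h2 := congrArg star h1.2
  rw [star_mul, star_mul, star_star] at h2
  exact h2

/-- the element `λ_g` of `L(Γ)` -/
def lg (Γ : Type) [Group Γ] (g : Γ) : Elt (LG Γ) := ⟨leftReg Γ g, leftReg_mem Γ g⟩

/-- LIFT: unitaries of the matrix ultraproduct lift to sequences of unitary matrices. -/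
def S_LIFT : Prop :=
  ∀ (U : Ultrafilter ℕ) (Q : Type) [Ring Q] [StarRing Q] [Algebra ℂ Q] [StarModule ℂ Q]
    (π : (∀ n, Mat n) → Q) (φ : Q → ℂ), IsMatrixUltraproduct U π φ → ∀ q ∈ unitary Q,
    ∃ V : ∀ n, unitaryGroup (Fin n) ℂ, π (fun n => (V n).1) = q

/-- DENS: the commutant of the group is the commutant of the factor. -/
def S_DENS : Prop :=
  ∀ (U : Ultrafilter ℕ) (Γ : Type) [Group Γ] (Q : Type) [Ring Q] [StarRing Q] [Algebra ℂ Q]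
    [StarModule ℂ Q] (π : (∀ n, Mat n) → Q) (φ : Q → ℂ), IsMatrixUltraproduct U π φ →
    ∀ θ : Elt (LG Γ) →⋆ₐ[ℂ] Q, (∀ x, φ (θ x) = trL Γ x) → ∀ y : Q,
      (∀ g, y * θ (lg Γ g) = θ (lg Γ g) * y) → ∀ x, y * θ x = θ x * y

/-- DIAG: trivial relative commutants give weak irreducibility. -/
def S_DIAG : Prop :=
  ∀ (U : Ultrafilter ℕ), (∀ n, {n} ∉ U) → ∀ (Q : Type) [Ring Q] [StarRing Q] [Algebra ℂ Q]
    [StarModule ℂ Q] (π : (∀ n, Mat n) → Q) (φ : Q → ℂ), IsMatrixUltraproduct U π φ →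
    ∀ (k : ℕ) (V : ∀ n, Fin k → unitaryGroup (Fin n) ℂ),
      (∀ y : Q, (∀ s, y * π (fun n => (V n s).1) = π (fun n => (V n s).1) * y) →
        ∃ c : ℂ, y = algebraMap ℂ Q c) →
      ∀ κ : ℝ, 0 < κ → ∃ δ : ℝ, 0 < δ ∧ ∀ᶠ n in U, IrrB (fun s => (V n s).1) δ κ

/-- ULT: irreducible embeddings of `L(Γ)` give irreducible approximations of `Γ`. -/
def S_ULT : Prop :=
  ∀ (U : Ultrafilter ℕ), (∀ n, {n} ∉ U) → ∀ (Γ : Type) [Group Γ] (Q : Type) [Ring Q] [StarRing Q]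
    [Algebra ℂ Q] [StarModule ℂ Q] (π : (∀ n, Mat n) → Q) (φ : Q → ℂ),
    IsMatrixUltraproduct U π φ → ∀ θ : Elt (LG Γ) →⋆ₐ[ℂ] Q, (∀ x, φ (θ x) = trL Γ x) →
    (∀ y : Q, (∀ x, y * θ x = θ x * y) → ∃ c : ℂ, y = algebraMap ℂ Q c) →
    ∀ (k : ℕ) (γ : FreeGroup (Fin k) →* Γ), Function.Surjective γ →
      ∃ V : ∀ n, Fin k → unitaryGroup (Fin n) ℂ,
        (∀ w, γ w = 1 → Tendsto (fun n => hs ((FreeGroup.lift (V n) w).1 - 1) / n) U (𝓝 0)) ∧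
        (∀ w, γ w ≠ 1 → Tendsto (fun n => hs ((FreeGroup.lift (V n) w).1 - 1) / n) U (𝓝 2)) ∧
        ∀ κ : ℝ, 0 < κ → ∃ δ : ℝ, 0 < δ ∧ ∀ᶠ n in U, IrrB (fun s => (V n s).1) δ κ

/-- MUB: the trace and the unit ball of the matrix ultraproduct. -/
def S_MUB : Prop :=
  ∀ (U : Ultrafilter ℕ), (∀ n, {n} ∉ U) → ∀ (Q : Type) [Ring Q] [StarRing Q] [Algebra ℂ Q]
    [StarModule ℂ Q] (π : (∀ n, Mat n) → Q) (φ : Q → ℂ), IsMatrixUltraproduct U π φ →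
    ∃ (f : Q →ₗ[ℂ] ℂ) (B : Set Q), (∀ x, f x = φ x) ∧ TrAlg f ∧ CE.Ball f B

/-- SOFQ: sofic groups embed in the unitary group of the matrix ultraproduct. -/
def S_SOFQ : Prop :=
  ∀ (U : Ultrafilter ℕ), (∀ n, {n} ∉ U) → ∀ (Q : Type) [Ring Q] [StarRing Q] [Algebra ℂ Q]
    [StarModule ℂ Q] (π : (∀ n, Mat n) → Q) (φ : Q → ℂ), IsMatrixUltraproduct U π φ →
    ∀ (Γ : Type) [Group Γ] [Countable Γ], IsSofic Γ →
      ∃ q : Γ →* Q, (∀ g, star (q g) = q g⁻¹) ∧ ∀ g, g ≠ 1 → φ (q g) = 0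

/-- EMB: from the group to the factor. -/
def S_EMB : Prop :=
  ∀ (U : Ultrafilter ℕ), (∀ n, {n} ∉ U) → ∀ (Q : Type) [Ring Q] [StarRing Q] [Algebra ℂ Q]
    [StarModule ℂ Q] (π : (∀ n, Mat n) → Q) (φ : Q → ℂ), IsMatrixUltraproduct U π φ →
    ∀ (Γ : Type) [Group Γ] (q : Γ →* Q), (∀ g, star (q g) = q g⁻¹) →
      (∀ g, g ≠ 1 → φ (q g) = 0) → ∃ θ : Elt (LG Γ) →⋆ₐ[ℂ] Q, ∀ x, φ (θ x) = trL Γ x

/-- The final statement. -/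
def S_FINAL : Prop :=
  ∃ (H : Type) (_ : NormedAddCommGroup H) (_ : InnerProductSpace ℂ H) (_ : CompleteSpace H)
    (N : VonNeumannAlgebra H) (τ : Elt N → ℂ), IsIIOneFactor N τ ∧ IsSeparable τ ∧ ¬ HasGamma τ ∧
    ∀ (U : Ultrafilter ℕ), (∀ n, {n} ∉ U) → MatUltraExists U ∧
      ∀ (Q : Type) [Ring Q] [StarRing Q] [Algebra ℂ Q] [StarModule ℂ Q] (π : (∀ n, Mat n) → Q)
        (φ : Q → ℂ), IsMatrixUltraproduct U π φ →
        (∃ θ : Elt N →⋆ₐ[ℂ] Q, Function.Injective θ ∧ ∀ x, φ (θ x) = τ x) ∧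
        ∀ θ : Elt N →⋆ₐ[ℂ] Q, (∀ x, φ (θ x) = τ x) →
          ∃ y : Q, (∀ x, y * θ x = θ x * y) ∧ ∀ c : ℂ, y ≠ algebraMap ℂ Q c

end

end Pool.Agent.N652.OM
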