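import Pool.Agent.N652.OM.Stm2
import Pool.Agent.N681.OM_DIAG
import Pool.Agent.Helper436.SN.Bridge

/-!
# Project OM: irreducible embeddings give irreducible approximations
-/

set_option autoImplicit false

namespace Pool.Agent.N652.OM

open Pool.Agent.Helper278 Pool.Agent.Helper436.SM Pool.Agent.Helper436.SN
open Pool.Agent.W661.RC Pool.Agent.N303.KQ
open Pool.Agent.N681.OM (opBound_unitary ntr_hs opBound_smul_one)
open Matrix Filter Topology
open scoped ComplexOrder InnerProductSpace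

noncomputable section

variable {Γ : Type} [Group Γ]

theorem lg_mul (g h : Γ) : lg Γ (g * h) = lg Γ g * lg Γ h := by
  apply Subtype.ext
  show leftReg Γ (g * h) = leftReg Γ g * leftReg Γ h
  unfold leftReg
  rw [permOp_mul]
  congr 1
  ext x
  show (g * h)⁻¹ * x = h⁻¹ * (g⁻¹ * x)
  group

theorem lg_one : lg Γ 1 = 1 := by
  apply Subtype.ext
  show leftReg Γ 1 = 1
  unfold leftReg
  rw [← permOp_refl]
  congr 1
  ext x
  show 1⁻¹ * x = x
  group

theorem star_lg (g : Γ) : star (lg Γ g) = lg Γ g⁻¹ := by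
  apply Subtype.ext
  show star (leftReg Γ g) = leftReg Γ g⁻¹
  unfold leftReg
  rw [star_permOp]
  congr 1
  apply Equiv.ext
  intro x
  show (g⁻¹)⁻¹ * x = (g⁻¹)⁻¹ * x
  rfl

theorem trL_lg (g : Γ) (hg : g ≠ 1) : trL Γ (lg Γ g) = 0 := by
  show ⟪dirac Γ, leftReg Γ g (dirac Γ)⟫_ℂ = 0
  rw [dirac_eq, leftReg_eq, lamK_basis, mul_one]
  exact inner_bb _ 1 g (Ne.symm hg)

section Q

variable {Q : Type} [Ring Q] [StarRing Q] [Algebra ℂ Q] [StarModule ℂ Q] {U : Ultrafilter ℕ}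
  {π : (∀ n, Mat n) → Q} {φ : Q → ℂ}

theorem nbu (V : ∀ n, unitaryGroup (Fin n) ℂ) : NormBounded fun n => (V n).1 :=
  ⟨1, fun n => opBound_unitary (V n)⟩

theorem nb_sub_one (V : ∀ n, unitaryGroup (Fin n) ℂ) : NormBounded fun n => (V n).1 + (-1 : ℂ) • (1 : Mat n) :=
  ⟨2 * (|1| + |‖(-1 : ℂ)‖|), fun n => (opBound_unitary (V n)).add (opBound_smul_one n (-1))⟩

theorem pi_word (hπ : IsMatrixUltraproduct U π φ) (θ : Elt (LG Γ) →⋆ₐ[ℂ] Q) (k : ℕ)
    (γ : FreeGroup (Fin k) →* Γ) (V : ∀ n, Fin k → unitaryGroup (Fin n) ℂ)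
    (hV : ∀ s, π (fun n => (V n s).1) = θ (lg Γ (γ (FreeGroup.of s)))) (w : FreeGroup (Fin k)) :
    π (fun n => (FreeGroup.lift (V n) w).1) = θ (lg Γ (γ w)) := by
  induction w using FreeGroup.induction_on with
  | C1 =>
    rw [map_one, lg_one, map_one]
    have : (fun n => (FreeGroup.lift (V n) 1).1) = fun n => (1 : Mat n) := by
      funext n
      rw [map_one]
      rfl
    rw [this, hπ.one]
  | of s =>
    rw [← hV s]
    congr 1
    funext n
    rw [FreeGroup.lift_apply_of]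
  | inv_of s _ =>
    rw [map_inv, ← star_lg, map_star, ← hV s, ← hπ.star _ (nbu fun n => V n s)]
    congr 1
    funext n
    rw [map_inv, FreeGroup.lift_apply_of]
    rfl
  | mul a b ha hb =>
    rw [map_mul, lg_mul, map_mul, ← ha, ← hb, ← hπ.mul _ _ (nbu fun n => FreeGroup.lift (V n) a)
      (nbu fun n => FreeGroup.lift (V n) b)]
    congr 1
    funext n
    rw [map_mul]
    rfl

omit [StarModule ℂ Q] in
theorem tendsto_hs (hπ : IsMatrixUltraproduct U π φ) (V : ∀ n, unitaryGroup (Fin n) ℂ) :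
    Tendsto (fun n => ((hs ((V n).1 - 1) / n : ℝ) : ℂ)) U
      (𝓝 (φ (star (π (fun n => (V n).1) + (-1 : ℂ) • 1) * (π (fun n => (V n).1) + (-1 : ℂ) • 1)))) := by
  have h1 := hπ.trace (fun n => star ((V n).1 + (-1 : ℂ) • (1 : Mat n)) *
    ((V n).1 + (-1 : ℂ) • (1 : Mat n)))
  have hb := nb_sub_one V
  have hbs : NormBounded fun n => star ((V n).1 + (-1 : ℂ) • (1 : Mat n)) := by
    obtain ⟨C, hC⟩ := hb
    exact ⟨|C|, fun n => (hC n).star'⟩
  have hbp : NormBounded fun n => star ((V n).1 + (-1 : ℂ) • (1 : Mat n)) *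
      ((V n).1 + (-1 : ℂ) • (1 : Mat n)) := by
    obtain ⟨C, hC⟩ := hb
    obtain ⟨D, hD⟩ := hbs
    exact ⟨D * C, fun n => (hD n).mul (hC n)⟩
  have h2 := h1 hbp
  have h1b : NormBounded fun n => (1 : Mat n) := by
    refine ⟨‖(1 : ℂ)‖, fun n => ?_⟩
    have := opBound_smul_one n 1
    rwa [one_smul] at this
  have h1c : NormBounded fun n => (-1 : ℂ) • (1 : Mat n) :=
    ⟨‖(-1 : ℂ)‖, fun n => opBound_smul_one n (-1)⟩
  have h3 : π (fun n => (V n).1 + (-1 : ℂ) • (1 : Mat n)) =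
      π (fun n => (V n).1) + (-1 : ℂ) • 1 := by
    rw [hπ.add _ _ (nbu V) h1c, hπ.smul _ _ h1b, hπ.one]
  rw [hπ.mul _ _ hbs hb, hπ.star _ hb, h3] at h2
  refine h2.congr fun n => ?_
  rw [ntr_hs]
  have : (V n).1 + (-1 : ℂ) • (1 : Mat n) = (V n).1 - 1 := by
    rw [neg_smul, one_smul, sub_eq_add_neg]
  rw [this]

end Q

theorem ult (hL : S_LIFT) (hDe : S_DENS) (hDi : S_DIAG) : S_ULT := by
  intro U hU Γ _ Q _ _ _ _ π φ hπ θ hθ hirr k γ hγ
  have huni : ∀ g : Γ, θ (lg Γ g) ∈ unitary Q := by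
    intro g
    rw [Unitary.mem_iff, ← map_star, ← map_mul, ← map_mul, star_lg, ← lg_mul, ← lg_mul,
      inv_mul_cancel, mul_inv_cancel, lg_one, map_one]
    exact ⟨rfl, rfl⟩
  choose V0 hV0 using fun s : Fin k => hL U Q π φ hπ _ (huni (γ (FreeGroup.of s)))
  let V : ∀ n, Fin k → unitaryGroup (Fin n) ℂ := fun n s => V0 s n
  have hV : ∀ s, π (fun n => (V n s).1) = θ (lg Γ (γ (FreeGroup.of s))) := hV0
  have hw := pi_word hπ θ k γ V hV
  -- values of the trace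
  have hval : ∀ g : Γ, φ (star (θ (lg Γ g) + (-1 : ℂ) • 1) * (θ (lg Γ g) + (-1 : ℂ) • 1)) =
      trL Γ (star (lg Γ g + (-1 : ℂ) • 1) * (lg Γ g + (-1 : ℂ) • 1)) := by
    intro g
    rw [← hθ, map_mul, map_star, map_add, map_smul, map_one]
  have hre : ∀ (w : FreeGroup (Fin k)) (c : ℝ), trL Γ (star (lg Γ (γ w) + (-1 : ℂ) • 1) *
      (lg Γ (γ w) + (-1 : ℂ) • 1)) = c →
      Tendsto (fun n => hs ((FreeGroup.lift (V n) w).1 - 1) / n) U (𝓝 c) := by
    intro w c hc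
    have h1 := tendsto_hs hπ (fun n => FreeGroup.lift (V n) w)
    rw [hw w, hval, hc] at h1
    have h2 := (Complex.continuous_re.tendsto _).comp h1
    rw [Complex.ofReal_re] at h2
    refine h2.congr fun n => ?_
    rw [Function.comp_apply, Complex.ofReal_re]
  have hadd : ∀ x y : Elt (LG Γ), trL Γ (x + y) = trL Γ x + trL Γ y := by
    intro x y
    show ⟪dirac Γ, ((x + y : Elt (LG Γ)) : EllTwo Γ →L[ℂ] EllTwo Γ) (dirac Γ)⟫_ℂ = _
    have : (((x + y : Elt (LG Γ)) : EllTwo Γ →L[ℂ] EllTwo Γ) (dirac Γ)) =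
      (x : EllTwo Γ →L[ℂ] EllTwo Γ) (dirac Γ) + (y : EllTwo Γ →L[ℂ] EllTwo Γ) (dirac Γ) := rfl
    rw [this, inner_add_right]
    rfl
  have hsmul : ∀ (c : ℂ) (x : Elt (LG Γ)), trL Γ (c • x) = c * trL Γ x := by
    intro c x
    show ⟪dirac Γ, ((c • x : Elt (LG Γ)) : EllTwo Γ →L[ℂ] EllTwo Γ) (dirac Γ)⟫_ℂ = _
    have : (((c • x : Elt (LG Γ)) : EllTwo Γ →L[ℂ] EllTwo Γ) (dirac Γ)) =
      c • (x : EllTwo Γ →L[ℂ] EllTwo Γ) (dirac Γ) := rfl
    rw [this, inner_smul_right]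
    rfl
  have hone : trL Γ 1 = 1 := by
    show ⟪dirac Γ, dirac Γ⟫_ℂ = 1
    rw [dirac_eq]
    exact inner_bb_self _ 1
  refine ⟨V, ?_, ?_, ?_⟩
  · intro w hw1
    refine hre w 0 ?_
    rw [hw1, lg_one, neg_smul, one_smul, add_neg_cancel, mul_zero]
    have := hsmul 0 1
    rw [zero_smul, zero_mul] at this
    rw [this]
    simp
  · intro w hw1
    refine hre w 2 ?_
    have e : star (lg Γ (γ w) + (-1 : ℂ) • 1) * (lg Γ (γ w) + (-1 : ℂ) • 1) =
        (2 : ℂ) • 1 + ((-1 : ℂ) • lg Γ (γ w) + (-1 : ℂ) • lg Γ (γ w)⁻¹) := by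
      have e1 : star (lg Γ (γ w)) * lg Γ (γ w) = 1 := by
        rw [star_lg, ← lg_mul, inv_mul_cancel, lg_one]
      have e2 : star ((-1 : ℂ) • (1 : Elt (LG Γ))) = (-1 : ℂ) • 1 := by
        rw [neg_smul, one_smul, star_neg, star_one]
      rw [star_add, e2, add_mul, mul_add, mul_add, e1, ← star_lg]
      simp only [neg_smul, one_smul, mul_neg, mul_one, neg_mul, one_mul, neg_neg]
      rw [two_smul]
      abel
    have hinv : (γ w)⁻¹ ≠ 1 := inv_ne_one.2 hw1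
    rw [e, hadd, hadd, hsmul, hsmul, hsmul, hone, trL_lg _ hw1, trL_lg _ hinv]
    norm_num
  · refine hDi U hU Q π φ hπ k V ?_
    intro y hy
    refine hirr y ?_
    refine hDe U Γ Q π φ hπ θ hθ y ?_
    intro g
    obtain ⟨w, rfl⟩ := hγ g
    have key : ∀ w : FreeGroup (Fin k), y * θ (lg Γ (γ w)) = θ (lg Γ (γ w)) * y := by
      intro w
      induction w using FreeGroup.induction_on with
      | C1 => rw [map_one, lg_one, map_one, mul_one, one_mul]
      | of s => rw [← hV s]; exact hy s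
      | inv_of s hs =>
        rw [map_inv]
        have e1 : θ (lg Γ (γ (FreeGroup.of s))⁻¹) * θ (lg Γ (γ (FreeGroup.of s))) = 1 := by
          rw [← map_mul, ← lg_mul, inv_mul_cancel, lg_one, map_one]
        have e2 : θ (lg Γ (γ (FreeGroup.of s))) * θ (lg Γ (γ (FreeGroup.of s))⁻¹) = 1 := by
          rw [← map_mul, ← lg_mul, mul_inv_cancel, lg_one, map_one]
        calc y * θ (lg Γ (γ (FreeGroup.of s))⁻¹) =
            (θ (lg Γ (γ (FreeGroup.of s))⁻¹) * θ (lg Γ (γ (FreeGroup.of s)))) *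
              (y * θ (lg Γ (γ (FreeGroup.of s))⁻¹)) := by rw [e1, one_mul]
          _ = θ (lg Γ (γ (FreeGroup.of s))⁻¹) * (θ (lg Γ (γ (FreeGroup.of s))) * y) *
              θ (lg Γ (γ (FreeGroup.of s))⁻¹) := by simp only [mul_assoc]
          _ = θ (lg Γ (γ (FreeGroup.of s))⁻¹) * (y * θ (lg Γ (γ (FreeGroup.of s)))) *
              θ (lg Γ (γ (FreeGroup.of s))⁻¹) := by rw [hs]
          _ = θ (lg Γ (γ (FreeGroup.of s))⁻¹) * y * (θ (lg Γ (γ (FreeGroup.of s))) *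
              θ (lg Γ (γ (FreeGroup.of s))⁻¹)) := by simp only [mul_assoc]
          _ = _ := by rw [e2, mul_one]
      | mul a b ha hb =>
        rw [map_mul, lg_mul, map_mul, ← mul_assoc, ha, mul_assoc, hb, mul_assoc]
    exact key w

end

end Pool.Agent.N652.OM
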